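import Pool.Agent.R489.HB.Stm

set_option autoImplicit false

/-! Piece ROOT of project HB (helper11): rooted forests. -/

namespace Pool.Agent.R11.HB

open SimpleGraph

theorem uniq_par {V : Type} (F : SimpleGraph V) (hF : F.IsAcyclic) {r u w w' : V}
    (hr : F.Reachable r u) (h1 : F.Adj u w) (h2 : F.Adj u w')
    (d1 : F.dist r u = F.dist r w + 1) (d2 : F.dist r u = F.dist r w' + 1) : w = w' := by
  classical
  obtain ⟨p, hp, hp'⟩ := hr.exists_path_of_dist
  have key : ∀ x, F.Adj u x → F.dist r u = F.dist r x + 1 → x = p.penultimate := by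
    intro x hx dx
    obtain ⟨q, hq, hq'⟩ := (hr.trans hx.reachable).exists_path_of_dist
    by_cases hxs : x ∈ p.support
    · exact hF.eq_penultimate_of_adj_end hp hx hxs
    · exfalso
      have hv : u ∈ q.support := hF.mem_support_of_ne_mem_support_of_adj_of_isPath hq hp
        hx.symm hxs
      have h3 := hF.path_concat hp hq hx hv
      have h4 : q.length = p.length + 1 := by rw [h3, SimpleGraph.Walk.length_concat]
      omega
  rw [key w h1 d1, key w' h2 d2]

theorem forest_parent {V : Type} (F : SimpleGraph V) (hF : F.IsAcyclic) :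
    ∃ (par : V → V) (dep : V → ℕ), ∀ u w, F.Adj u w →
      (par u = w ∧ dep u = dep w + 1) ∨ (par w = u ∧ dep w = dep u + 1) := by
  classical
  obtain ⟨root, hroot⟩ : ∃ root : V → V, ∀ u, root u = (F.connectedComponentMk u).out :=
    ⟨_, fun _ => rfl⟩
  have hreach : ∀ u, F.Reachable (root u) u := by
    intro u
    rw [hroot]
    exact SimpleGraph.ConnectedComponent.exact (Quot.out_eq (F.connectedComponentMk u))
  have hadjroot : ∀ u w, F.Adj u w → root u = root w := by
    intro u w h
    rw [hroot, hroot, SimpleGraph.ConnectedComponent.sound h.reachable]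
  obtain ⟨dep, hdep⟩ : ∃ dep : V → ℕ, ∀ u, dep u = F.dist (root u) u := ⟨_, fun _ => rfl⟩
  have hex : ∀ u w, F.Adj u w → dep u = dep w + 1 ∨ dep w = dep u + 1 := by
    intro u w h
    have h1 := hF.dist_eq_dist_add_one_of_adj_of_reachable (root u) h (hreach u)
    rw [hdep, hdep, ← hadjroot u w h]
    exact h1
  have huniq : ∀ u w w', F.Adj u w → F.Adj u w' → dep u = dep w + 1 → dep u = dep w' + 1 →
      w = w' := by
    intro u w w' h h' hd hd'
    refine uniq_par F hF (hreach u) h h' ?_ ?_
    · rw [hdep, hdep, ← hadjroot u w h] at hd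
      exact hd
    · rw [hdep, hdep, ← hadjroot u w' h'] at hd'
      exact hd'
  have hparex : ∀ u, ∃ p : V, ∀ w, F.Adj u w → dep u = dep w + 1 → p = w := by
    intro u
    by_cases h : ∃ w, F.Adj u w ∧ dep u = dep w + 1
    · obtain ⟨w0, h0, hd0⟩ := h
      exact ⟨w0, fun w hw hd => huniq u w0 w h0 hw hd0 hd⟩
    · exact ⟨u, fun w hw hd => absurd ⟨w, hw, hd⟩ h⟩
  choose par hpar using hparex
  refine ⟨par, dep, ?_⟩
  intro u w h
  rcases hex u w h with h1 | h1
  · exact Or.inl ⟨hpar u w h h1, h1⟩
  · exact Or.inr ⟨hpar w u h.symm h1, h1⟩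

theorem ROOT : Pool.Agent.R489.HB.S_ROOT := fun _ _ F hF => forest_parent F hF

end Pool.Agent.R11.HB
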